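import Pool.Agent.Lib.MP_9debf8_pr.Rate

set_option autoImplicit false

open MeasureTheory ProbabilityTheory Finset

namespace Pool.Agent.Results.MP_9debf8_pr.PowerSaving

/-- `π 0, …, π (2 n)` is an up-right nearest-neighbour lattice path from `(0,0)` to `(n,n)`. -/
def UpRight (n : ℕ) (π : ℕ → ℤ × ℤ) : Prop :=
  π 0 = (0, 0) ∧ π (2 * n) = ((n : ℤ), (n : ℤ)) ∧
    ∀ k < 2 * n, π (k + 1) = π k + (1, 0) ∨ π (k + 1) = π k + (0, 1)

/-- Last-passage time from `(0,0)` to `(n,n)` for the weights `W`. -/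
noncomputable def passage (W : ℤ × ℤ → ℕ) (n : ℕ) : ℝ :=
  ⨆ π : {π : ℕ → ℤ × ℤ // UpRight n π}, ∑ k ∈ range (2 * n + 1), (W (π.1 k) : ℝ)

open Pool.Agent.HideZero

lemma passage_eq (W : ℤ × ℤ → ℕ) (n : ℕ) (ζ : Fld) (h : ∀ i j : ℕ, W (i, j) = ζ (i, j)) :
    passage W n = Lp ζ n n := by
  have hs : ∀ σ : ℕ → Bool, ∑ k ∈ range (2 * n + 1), (W ((pos σ k).1, (pos σ k).2) : ℝ)
      = ((ζ (0, 0) + val ζ σ (2 * n) : ℕ) : ℝ) := by
    intro σ
    rw [Lp_eq_sum, Nat.cast_sum]
    exact sum_congr rfl fun k _ => by rw [h]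
  have hub : ∀ π : {π : ℕ → ℤ × ℤ // UpRight n π},
      ∑ k ∈ range (2 * n + 1), (W (π.1 k) : ℝ) ≤ Lp ζ n n := by
    rintro ⟨π, h0, h1, h2⟩
    let σ : ℕ → Bool := fun k => decide (π (k + 1) = π k + (1, 0))
    have e : ∀ k ≤ 2 * n, π k = (((pos σ k).1 : ℤ), ((pos σ k).2 : ℤ)) := by
      intro k hk
      induction k with
      | zero => exact h0
      | succ k ih =>
        have ih := ih (by omega)
        by_cases hc : π (k + 1) = π k + (1, 0)
        · rw [pos, if_pos (by simpa [σ] using hc), hc, ih]; simp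
        · rw [pos, if_neg (by simpa [σ] using hc), (h2 k (by omega)).resolve_left hc, ih]; simp
    have e2 : pos σ (2 * n) = (n, n) := by
      have := e _ le_rfl
      rw [h1, Prod.mk.injEq] at this
      exact Prod.ext (by omega) (by omega)
    simp only
    rw [sum_congr rfl fun k hk => by rw [e k (by have := mem_range.1 hk; omega)], hs]
    exact_mod_cast Nat.add_le_add_left (val_le' ζ e2) _
  obtain ⟨σ, h1, h2⟩ := exists_opt ζ n n
  rw [← two_mul] at h1 h2
  let π₀ : {π : ℕ → ℤ × ℤ // UpRight n π} :=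
    ⟨fun k => (((pos σ k).1 : ℤ), ((pos σ k).2 : ℤ)), rfl, by simp only [h1], fun k _ => by
      simp only [pos]; split_ifs <;> simp⟩
  have : Nonempty {π : ℕ → ℤ × ℤ // UpRight n π} := ⟨π₀⟩
  refine le_antisymm (ciSup_le hub) (le_ciSup_of_le ⟨_, Set.forall_mem_range.2 hub⟩ π₀ ?_)
  simp only [π₀]
  rw [hs, h2, Pool.Agent.HideZero.Lp]

lemma eq_of_single_le {α : Type} [MeasurableSpace α] [Countable α] [MeasurableSingletonClass α]
    {μ ν : Measure α} [IsProbabilityMeasure μ] [IsProbabilityMeasure ν]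
    (h : ∀ a, μ {a} ≤ ν {a}) : μ = ν := by
  refine Measure.eq_of_le_of_isProbabilityMeasure (Measure.le_iff.2 fun s hs => ?_)
  rw [← Measure.tsum_indicator_apply_singleton _ s hs,
    ← Measure.tsum_indicator_apply_singleton _ s hs]
  exact ENNReal.tsum_le_tsum fun p => Set.indicator_le_indicator (h p)

/-- Knowing the would-be values of the non-zero weights reveals only a fraction `n ^ (-c)` of the
variance of the geometric last-passage time, with `c > 0` depending on `q` only. -/
theorem result (q : ℝ) (h0 : 0 < q) (h1 : q < 1) :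
    ∃ c : ℝ, 0 < c ∧ ∃ N : ℕ, ∀ (Ω : Type) [mΩ : MeasurableSpace Ω]
      (μ : Measure Ω) [IsProbabilityMeasure μ] (B Y : ℤ × ℤ → Ω → ℕ),
      (∀ v, Measurable (B v)) → (∀ v, Measurable (Y v)) →
      iIndepFun (fun s : (ℤ × ℤ) ⊕ (ℤ × ℤ) => Sum.elim B Y s) μ →
      (∀ v ω, B v ω = 0 ∨ B v ω = 1) → (∀ v ω, 1 ≤ Y v ω) →
      (∀ v, μ.real {ω | B v ω = 1} = q) →
      (∀ v k, 1 ≤ k → μ.real {ω | Y v ω = k} = (1 - q) * q ^ (k - 1)) →
      ∀ n : ℕ, N ≤ n →
        variance (μ[fun ω => passage (fun v => B v ω * Y v ω) n |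
          ⨆ v : ℤ × ℤ, MeasurableSpace.comap (Y v) inferInstance]) μ
        ≤ (n : ℝ) ^ (-c) * variance (fun ω => passage (fun v => B v ω * Y v ω) n) μ := by
  classical
  have hr0 : 0 < √q := Real.sqrt_pos.2 h0
  have hr1 : √q < 1 := by rw [Real.sqrt_lt' one_pos]; simpa using h1
  obtain ⟨c, hc, hev⟩ := scales_rate hr0 hr1
  obtain ⟨N, hN⟩ := Filter.eventually_atTop.1 hev
  refine ⟨c, hc, N, ?_⟩
  intro Ω mΩ μ _ B Y hB hY hind hB1 hY1 hBlaw hYlaw n hnN
  have mX : ∀ s : (ℤ × ℤ) ⊕ (ℤ × ℤ), Measurable (Sum.elim B Y s) := by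
    rintro (v | v)
    · exact hB v
    · exact hY v
  have lB : ∀ v, (μ.map (B v)).map (fun k => decide (k = 1)) = bern q := by
    intro v
    rw [Measure.map_map (measurable_of_countable _) (hB v)]
    have mb := (measurable_of_countable fun k : ℕ => decide (k = 1)).comp (hB v)
    have ht : μ.map ((fun k => decide (k = 1)) ∘ B v) {true} = bern q {true} := by
      rw [Measure.map_apply mb (measurableSet_singleton _), bern_single h0.le h1.le]
      simp only [bw, if_true]
      rw [← hBlaw v, ofReal_measureReal]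
      simp [Set.preimage]
    have := Measure.isProbabilityMeasure_map (μ := μ) mb.aemeasurable
    refine Measure.ext_of_singleton fun b => ?_
    cases b
    · have e : ({false} : Set Bool) = {true}ᶜ := by ext b; cases b <;> simp
      rw [e, prob_compl_eq_one_sub .of_discrete, prob_compl_eq_one_sub .of_discrete, ht]
    · exact ht
  have lY : ∀ v, (μ.map (Y v)).map (fun k => k - 1) = geo q := by
    intro v
    rw [Measure.map_map (measurable_of_countable _) (hY v)]
    have mb := (measurable_of_countable fun k : ℕ => k - 1).comp (hY v)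
    have := Measure.isProbabilityMeasure_map (μ := μ) mb.aemeasurable
    refine (eq_of_single_le fun k => ?_).symm
    have e := hYlaw v (k + 1) (by omega)
    rw [Nat.add_sub_cancel] at e
    rw [Measure.map_apply mb (measurableSet_singleton _), geo_single h0.le h1, ← e,
      ofReal_measureReal]
    exact measure_mono fun ω (hω : Y v ω = k + 1) => by simp [hω]
  obtain ⟨m, hn⟩ := hN n hnN
  rw [Real.sq_sqrt h0.le] at hn
  let ι : ℕ × ℕ → ℤ × ℤ := fun u => ((u.1 : ℤ), (u.2 : ℤ) - m)
  let Z : Ω → PF := fun ω u => (decide (B (ι u) ω = 1), Y (ι u) ω - 1)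
  have hZ : MeasurePreserving Z μ (QQ q) := by
    let f : (ℕ × ℕ) × Bool → (ℤ × ℤ) ⊕ (ℤ × ℤ) := fun p =>
      if p.2 then Sum.inl (ι p.1) else Sum.inr (ι p.1)
    have finj : Function.Injective f := by
      rintro ⟨u, b⟩ ⟨u', b'⟩ h
      cases b <;> cases b' <;> simp only [f, ι, if_true, Bool.false_eq_true, if_false,
        Sum.inl.injEq, Sum.inr.injEq, Prod.mk.injEq, reduceCtorEq] at h
      all_goals
        have e : u = u' := Prod.ext (by omega) (by omega)
        rw [e]
    have hp (s : (ℤ × ℤ) ⊕ (ℤ × ℤ)) : IsProbabilityMeasure (μ.map (Sum.elim B Y s)) :=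
      Measure.isProbabilityMeasure_map (mX s).aemeasurable
    have e0 : MeasurePreserving (fun ω s => Sum.elim B Y s ω) μ _ :=
      ⟨measurable_pi_lambda _ mX, hind.map_fun_eq_infinitePi_map mX⟩
    have e1 : MeasurePreserving (fun (x : (ℤ × ℤ) ⊕ (ℤ × ℤ) → ℕ) p => x (f p)) _ _ :=
      ⟨measurable_pi_lambda _ fun _ => measurable_pi_apply _,
        Measure.map_infinitePi_infinitePi_of_inj (P := fun s => μ.map (Sum.elim B Y s)) finj⟩
    have e2 : MeasurePreserving (MeasurableEquiv.curry (ℕ × ℕ) Bool ℕ) _ _ :=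
      ⟨MeasurableEquiv.measurable _,
        Measure.infinitePi_map_curry fun u b => μ.map (Sum.elim B Y (f (u, b)))⟩
    let φ : (Bool → ℕ) → Bool × ℕ := fun g => (decide (g true = 1), g false - 1)
    have e3 : MeasurePreserving (fun (x : ℕ × ℕ → Bool → ℕ) u => φ (x u))
        (Measure.infinitePi fun u => Measure.infinitePi fun b => μ.map (Sum.elim B Y (f (u, b))))
        (QQ q) := by
      refine ⟨measurable_pi_lambda _ fun u =>
        (measurable_of_countable φ).comp (measurable_pi_apply u), ?_⟩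
      rw [Measure.infinitePi_map_pi _ (f := fun _ => φ) fun _ => measurable_of_countable φ, QQ]
      congr 1
      funext u
      have := Measure.infinitePi_map_eval_prod (P := fun b => μ.map (Sum.elim B Y (f (u, b))))
        (i := true) (j := false) (by simp)
      rw [← lB (ι u), ← lY (ι u), Measure.map_prod_map _ _ (measurable_of_countable _)
        (measurable_of_countable _)]
      refine Eq.trans ?_ (congrArg (Measure.map _) this)
      rw [Measure.map_map (measurable_of_countable _) (measurable_of_countable _)]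
      rfl
    exact e3.comp (e2.comp (e1.comp e0))
  have hTe : (fun ω => passage (fun v => B v ω * Y v ω) n)
      = fun ω => (Lp (sh (0, m) (wf (Z ω))) n n : ℝ) := by
    funext ω
    refine passage_eq _ n _ fun i j => ?_
    have := hY1 (i, j) ω
    rcases hB1 (i, j) ω with h | h <;> simp [sh, wf, Z, ι, wt, h]
    omega
  have hle : ∀ s : (ℤ × ℤ) ⊕ (ℤ × ℤ),
      MeasurableSpace.comap (Sum.elim B Y s) inferInstance ≤ mΩ := fun s => (mX s).comap_le
  have hI := indep_iSup_of_disjoint hle hind.iIndep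
    (S := Set.range Sum.inl) (T := Set.range Sum.inr) Set.isCompl_range_inl_range_inr.disjoint
  have key := hn Ω (⨆ v : ℤ × ℤ, MeasurableSpace.comap (Y v) inferInstance) _ μ Z hZ
    (iSup_le fun v => hle (.inr v)) (iSup₂_le fun s _ => hle s) (indep_of_indep_of_le_right hI
      (iSup_le fun v => le_iSup₂_of_le (Sum.inr v) ⟨v, rfl⟩ le_rfl))
    (fun u => (measurable_of_countable fun k : ℕ => decide (k = 1)).comp
      ((comap_measurable _).mono (le_iSup₂_of_le (Sum.inl (ι u)) ⟨_, rfl⟩ le_rfl) le_rfl))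
    (fun u => (measurable_of_countable fun k : ℕ => k - 1).comp
      ((comap_measurable _).mono (le_iSup_of_le (ι u) le_rfl) le_rfl))
  have hV := ((mp_sh q (0, m)).comp ((mp_wf h0.le h1).comp hZ)).variance_fun_comp
    (measurable_cast (measurable_Lp n n)).aemeasurable
  rw [hTe]
  rw [← hV] at key
  exact key

end Pool.Agent.Results.MP_9debf8_pr.PowerSaving
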